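import Mathlib
import Pool.Agent.Lib.MP_7c5c90_an.RP.Lower

set_option autoImplicit false

open MeasureTheory

namespace Pool.Agent.Results.MP_7c5c90_an.RegularPolygons

open Pool.Agent.Lib.MP_7c5c90_an.RP

/-- The best constant in Friedrichs' inequality on the regular `n`-gon `P` with interior angle `ω`
is `(ω + sin ω) / (ω - sin ω)`; for `n = 4`, `P` is the square `(-1,1)²` and the value is
`(π+2)/(π-2)`. -/
theorem result (n : ℕ) (hn : 3 ≤ n) (P : Set ℂ)
    (hP : P = {z : ℂ | ∀ k : ℕ,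
      z.re * Real.cos (2 * Real.pi * k / n) + z.im * Real.sin (2 * Real.pi * k / n) < 1})
    (ω : ℝ) (hω : ω = Real.pi - 2 * Real.pi / n) :
    IsLeast {Γ : ℝ | ∀ w : ℂ → ℂ, DifferentiableOn ℂ w P →
      IntegrableOn (fun z => (w z).re ^ 2) P → IntegrableOn (fun z => (w z).im ^ 2) P →
      ∫ z in P, (w z).re = 0 → ∫ z in P, (w z).re ^ 2 ≤ Γ * ∫ z in P, (w z).im ^ 2}
      ((ω + Real.sin ω) / (ω - Real.sin ω)) := by
  have h1 : ∀ (k : ℕ) (z : ℂ), ((zt n)⁻¹ ^ k * z).re =
      z.re * Real.cos (2 * Real.pi * k / n) + z.im * Real.sin (2 * Real.pi * k / n) := fun k z => by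
    rw [zt, ← e_neg, e_pow, show (k : ℝ) * -(2 * th n) = -(2 * Real.pi * k / n) by rw [th]; ring,
      Complex.mul_re, e_re, e_im, Real.cos_neg, Real.sin_neg]
    ring
  have h2 : P = Pol n 1 := by
    rw [hP]
    ext z
    simp only [Set.mem_ofPred_eq, ← h1]
    refine ⟨fun h k => ?_, fun h k => by simpa using inv_mul_mem_Pol hn h k 0⟩
    have := h ((n - 1) * k)
    rwa [inv_pow, ← inv_pow_eq hn, inv_pow, inv_inv] at this
  have h3 : ω = Real.pi - 2 * th n := by rw [hω, th]; ring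
  have h4 : Real.sin ω = Real.sin (2 * th n) := by rw [h3, Real.sin_pi_sub]
  rw [h2, h4, h3]
  exact ⟨upper hn, lower hn⟩

end Pool.Agent.Results.MP_7c5c90_an.RegularPolygons
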