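import Mathlib
import Pool.Agent.Lib.MP_7c5c90_an.TR.Sim
import Pool.Agent.FS.Rhombi.Lower

set_option autoImplicit false

open MeasureTheory

namespace Pool.Agent.Results.MP_7c5c90_an.Rhombi

open Pool.Agent.Lib.MP_7c5c90_an.RP Pool.Agent.Lib.MP_7c5c90_an.TR Pool.Agent.FS.Rhombi

/-- The best constant in Friedrichs' inequality on the open rhombus `P` with vertex `p`, sides `κ`
and `κ e^{iω}` and smallest angle `ω` is `(ω + sin ω) / (ω - sin ω)`. -/
theorem result (p κ : ℂ) (hκ : κ ≠ 0) (ω : ℝ) (h0 : 0 < ω) (h1 : ω ≤ Real.pi / 2) (P : Set ℂ)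
    (hP : P = {z : ℂ | ∃ x y : ℝ, 0 < x ∧ x < 1 ∧ 0 < y ∧ y < 1 ∧
      z = p + κ * (x + y * Complex.exp (ω * Complex.I))}) :
    IsLeast {Γ : ℝ | ∀ w : ℂ → ℂ, DifferentiableOn ℂ w P →
      IntegrableOn (fun z => (w z).re ^ 2) P → IntegrableOn (fun z => (w z).im ^ 2) P →
      ∫ z in P, (w z).re = 0 → ∫ z in P, (w z).re ^ 2 ≤ Γ * ∫ z in P, (w z).im ^ 2}
      ((ω + Real.sin ω) / (ω - Real.sin ω)) := by
  have hs := Real.sin_pos_of_pos_of_lt_pi h0 (by linarith [Real.pi_pos])
  have hc : ct ω * Real.sin ω = Real.cos ω := div_mul_cancel₀ _ hs.ne'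
  have e2 : P = (fun z => p + κ * z) '' Pa (ct ω) (Real.sin ω) 0 1 := by
    rw [hP]
    ext z
    constructor
    · rintro ⟨x, y, x0, x1, y0, y1, rfl⟩
      refine ⟨x + y * e ω, ?_, rfl⟩
      simp only [Pa, Set.mem_ofPred_eq, sub_zero, Complex.add_re, Complex.add_im, Complex.ofReal_re,
        Complex.ofReal_im, Complex.re_ofReal_mul, Complex.im_ofReal_mul, e_re, e_im, zero_add,
        one_mul, mul_left_comm (ct ω), hc]
      exact ⟨mul_pos y0 hs, mul_lt_of_lt_one_left hs y1, by linarith, by linarith⟩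
    · rintro ⟨v, ⟨a1, a2, a3, a4⟩, rfl⟩
      rw [sub_zero] at a1 a2 a3 a4
      refine ⟨v.re - ct ω * v.im, v.im / Real.sin ω, by linarith, by linarith, div_pos a1 hs,
        (div_lt_one hs).2 (by linarith), ?_⟩
      have : v = (v.re - ct ω * v.im : ℝ) + (v.im / Real.sin ω : ℝ) * e ω := by
        apply Complex.ext
        · rw [Complex.add_re, Complex.ofReal_re, Complex.re_ofReal_mul, e_re, ← hc]
          field_simp
          ring
        · rw [Complex.add_im, Complex.ofReal_im, Complex.im_ofReal_mul, e_im, zero_add,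
            div_mul_cancel₀ _ hs.ne']
      exact congrArg (fun v => p + κ * v) this
  have hn := rnormalised h0 h1
  have hm : MeasurableSet P := by
    rw [e2]
    exact (((Homeomorph.mulLeft₀ κ hκ).trans (Homeomorph.addLeft p)).isOpenMap _
      isOpen_Pa).measurableSet
  refine ⟨e2 ▸ Adm_image isOpen_Pa.measurableSet p hκ hn.1, fun Γ hΓ => hn.2 ?_⟩
  have := Adm_image hm (-(κ⁻¹ * p)) (inv_ne_zero hκ) hΓ
  rwa [e2, Set.image_image, Set.image_congr (g := id)
    (fun z _ => by simp only [id]; field_simp; ring), Set.image_id] at this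

end Pool.Agent.Results.MP_7c5c90_an.Rhombi
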