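import Mathlib
import Pool.Agent.Lib.MP_7c5c90_an.TR.Sim

set_option autoImplicit false

open MeasureTheory EuclideanGeometry

namespace Pool.Agent.Results.MP_7c5c90_an.Triangles

open Pool.Agent.Lib.MP_7c5c90_an.TR

/-- The best constant in Friedrichs' inequality on the open triangle `P` with vertices `p`, `q`, `r`
is `(ω + sin ω) / (ω - sin ω)`, where `ω` is the smallest angle of the triangle. -/
theorem result (p q r : ℂ) (hpqr : ¬Collinear ℝ {p, q, r}) (P : Set ℂ)
    (hP : P = interior (convexHull ℝ {p, q, r})) (ω : ℝ)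
    (hω : ω = min (∠ q p r) (min (∠ p q r) (∠ p r q))) :
    IsLeast {Γ : ℝ | ∀ w : ℂ → ℂ, DifferentiableOn ℂ w P →
      IntegrableOn (fun z => (w z).re ^ 2) P → IntegrableOn (fun z => (w z).im ^ 2) P →
      ∫ z in P, (w z).re = 0 → ∫ z in P, (w z).re ^ 2 ≤ Γ * ∫ z in P, (w z).im ^ 2}
      ((ω + Real.sin ω) / (ω - Real.sin ω)) := by
  have h1 := min_le_left (∠ q p r) (min (∠ p q r) (∠ p r q))
  have h2 := (min_le_right (∠ q p r) _).trans (min_le_left (∠ p q r) (∠ p r q))
  have h3 := (min_le_right (∠ q p r) _).trans (min_le_right (∠ p q r) (∠ p r q))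
  rw [← hω] at h1 h2 h3
  rw [hP]
  rcases min_choice (∠ q p r) (min (∠ p q r) (∠ p r q)) with h | h
  · rw [hω.trans h] at h2 h3 ⊢
    exact at_vertex hpqr h2 h3
  rcases min_choice (∠ p q r) (∠ p r q) with h' | h'
  · rw [hω.trans (h.trans h')] at h1 h3 ⊢
    rw [Set.insert_comm] at hpqr ⊢
    exact at_vertex hpqr h1 (angle_comm p r q ▸ h3)
  · rw [hω.trans (h.trans h')] at h1 h2 ⊢
    rw [Set.pair_comm q r, Set.insert_comm] at hpqr ⊢
    exact at_vertex hpqr (angle_comm q p r ▸ h1) (angle_comm p q r ▸ h2)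

end Pool.Agent.Results.MP_7c5c90_an.Triangles
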